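import Pool.Agent.U918.LP.Fam

/-!
# Primes `n² + 1 + b c` for almost all pairs `(b, c)`, with arbitrary weights on the `n`; several conditions at once

Let `w` be ANY bounded real weight on the integers `n ≤ X`, for example the indicator of an arbitrary set, and let
`0 ≤ k_i ≤ B X²`, `i = 1, …, r`, be any integers, for example `k_i = 1`. For all but a share `log ^ (-U) X` of the
`2r`-tuples `(b_1, c_1, …, b_r, c_r)` of integers in `[1, X]`, the sum of `w n` over the `n` for which all the numbers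
`n² + b_i c_i + k_i` are prime is the sum of `w n ∏ 1 / (V z log (n² + b_i c_i + k_i))` over the `n` for which all the
numbers `n² + b_i c_i + k_i` are free of primes `≤ z`, up to an error `X / log ^ D X`; here `z` is a power of `log X`,
`V z = ∏_{p ≤ z} (1 - 1/p)`, and this holds simultaneously for all initial intervals `n ≤ y`, `y ≤ X`, and all residue
classes of `n` to all moduli up to `log ^ K X`.

For `r = 1`, `k_1 = 1`: for ARBITRARY sets `S ⊆ [1, X]` and `T ⊆ [1, X]²` the number of triples `(n, b, c)`, `n ∈ S`,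
`(b, c) ∈ T`, for which `n² + 1 + b c` is prime is known up to `X³ / log ^ D X`. Here `n² + b c` is the determinant of
the matrix with rows `(n, b)` and `(-c, n)`.
-/

set_option autoImplicit false

open Finset

namespace Pool.Agent.Results.MP_484c84_nt.AddedProducts

/-- the product of `1 - 1/p` over the primes `p ≤ z` -/
noncomputable def V (z : ℕ) : ℝ := ∏ p ∈ (Icc 1 z).filter Nat.Prime, (1 - 1 / (p : ℝ))

/-- the shifts `b_i c_i + k_i` -/
def shifts {r : ℕ} (t : Fin r → ℕ × ℕ) (k : Fin r → ℕ) (i : Fin r) : ℕ := (t i).1 * (t i).2 + k i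

open Classical in
/-- the sum of `w n` over the `n`, `1 ≤ n ≤ y`, `n ≡ a mod q`, for which all the numbers `n² + h i` are prime -/
noncomputable def primeSum {r : ℕ} (w : ℕ → ℝ) (h : Fin r → ℕ) (q a y : ℕ) : ℝ :=
  ∑ n ∈ (Icc 1 y).filter (fun n => n ≡ a [MOD q] ∧ ∀ i, (n ^ 2 + h i).Prime), w n

open Classical in
/-- the sum of `w n / ∏ (V z · log (n² + h i))` over the `n`, `1 ≤ n ≤ y`, `n ≡ a mod q`, for which no prime `p ≤ z`
divides any of the numbers `n² + h i` -/
noncomputable def modelSum {r : ℕ} (z : ℕ) (w : ℕ → ℝ) (h : Fin r → ℕ) (q a y : ℕ) : ℝ :=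
  ∑ n ∈ (Icc 1 y).filter (fun n => n ≡ a [MOD q] ∧ ∀ i, ∀ p : ℕ, p.Prime → p ≤ z → ¬ p ∣ n ^ 2 + h i),
    w n * ∏ i, (V z * Real.log ((n ^ 2 + h i : ℕ) : ℝ))⁻¹

open Classical in
/-- **The theorem.** For all `r`, `B`, `U`, `D`, `K` there is `B₀` such that for every `E`, every large `X`, every
integer `z` with `log ^ B₀ X ≤ z ≤ log ^ E X`, EVERY weight `w` with `|w n| ≤ 1` and all integers `0 ≤ k i ≤ B X²`
(for example all `k i = 1`): for all but at most `X ^ (2 r) / log ^ U X` of the vectors `t = ((b_i, c_i))` of pairs of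
integers in `[1, X]`, one has with the shifts `h i = b_i c_i + k i` for all `y ≤ X`, all moduli `1 ≤ q ≤ log ^ K X` and
all classes `a` that `primeSum w h q a y` and `modelSum z w h q a y` differ by at most `X / log ^ D X`. -/
theorem result (r B U D K : ℕ) :
    ∃ B₀ : ℕ, ∀ E : ℕ, ∃ X₀ : ℕ, ∀ X : ℕ, X₀ ≤ X → ∀ z : ℕ, Real.log X ^ B₀ ≤ z → (z : ℝ) ≤ Real.log X ^ E →
    ∀ w : ℕ → ℝ, (∀ n, |w n| ≤ 1) → ∀ k : Fin r → ℕ, (∀ i, k i ≤ B * X ^ 2) →
    (((Fintype.piFinset (fun _ : Fin r => Icc 1 X ×ˢ Icc 1 X)).filter (fun t =>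
      ∃ y ≤ X, ∃ q a : ℕ, 1 ≤ q ∧ (q : ℝ) ≤ Real.log X ^ K ∧
        (X : ℝ) / Real.log X ^ D <
          |primeSum w (shifts t k) q a y - modelSum z w (shifts t k) q a y|)).card : ℝ) ≤
      (X : ℝ) ^ (2 * r) / Real.log X ^ U := by
  have hdeg : (Polynomial.X ^ 2 : Polynomial ℤ).natDegree = 2 := by compute_degree!
  exact Pool.Agent.U918.LP.fam r (Polynomial.X ^ 2 : Polynomial ℤ) hdeg
    (by rw [Polynomial.leadingCoeff, hdeg]; simp) (fun m => m ^ 2) (fun m => by simp)
    (fun u v huv => Nat.pow_le_pow_left huv 2) Pool.Agent.U918.LP.mus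
    (fun t h1 h2 => by
      unfold Pool.Agent.U918.LP.mus
      exact Nat.mul_pos h1 h2)
    (fun x t h1 h2 => by
      unfold Pool.Agent.U918.LP.mus
      have h3 : t.1 * t.2 ≤ x * x := Nat.mul_le_mul h1 h2
      nlinarith)
    Pool.Agent.U918.LP.En_mus B U D K

end Pool.Agent.Results.MP_484c84_nt.AddedProducts
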