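import Pool.Agent.U847.Q484.Omega

set_option autoImplicit false

/-!
# The error term of the asymptotic formula for `P_1(N)` is `Ω(log log N)`, in every short interval

No function with increments of the expected size `≫ 1 / log N`, in particular not `c_1 ∫_2^N dt / log t`, is closer to
`P_1(N)` than a constant times `log log N`, and this holds for some `N` in every interval `[x, x + x^δ]`. The proof rests
on `Pool.Agent.H474R2.PG.composite_strings` of the starting library (long strings of composite values of an irreducible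
polynomial, of length `≫ log Y log log Y` in every interval of length `Y`), which is not handed in there.
-/

namespace Pool.Agent.Results.MP_484c84_nt.ErrorTermLogLog

open MeasureTheory

/-- `P_1(N)`, the number of the integers `1 ≤ n ≤ N` for which `n ^ 2 + 1` is a prime. -/
def primeCount (N : ℕ) : ℕ := ((Finset.Icc 1 N).filter (fun n : ℕ => (n ^ 2 + 1).Prime)).card

/-- There are `c > 0` and `Y₀` such that for all real `Y ≥ Y₀` and all integers `x ≥ Y`:
for every `κ ≥ 0` and every `F : ℕ → ℝ` with `F(n + 1) - F(n) ≥ κ / log (n + 1)` for all `n ≥ 2`, some integer `N` with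
`x ≤ N ≤ x + Y` satisfies `|P_1(N) - F(N)| ≥ c κ (log Y / log x) log log Y`; in particular this holds for
`F(N) = C ∫_2^N dt / log t` with `κ = C`, for every `C ≥ 0`. -/
theorem result : ∃ c : ℝ, 0 < c ∧ ∃ Y₀ : ℝ, ∀ (Y : ℝ) (x : ℕ), Y₀ ≤ Y → Y ≤ x →
    (∀ (κ : ℝ) (F : ℕ → ℝ), 0 ≤ κ → (∀ n : ℕ, 2 ≤ n → κ / Real.log (n + 1) ≤ F (n + 1) - F n) →
      ∃ N : ℕ, x ≤ N ∧ (N : ℝ) ≤ x + Y ∧
        c * κ * (Real.log Y / Real.log x) * Real.log (Real.log Y) ≤ |(primeCount N : ℝ) - F N|) ∧
    ∀ C : ℝ, 0 ≤ C → ∃ N : ℕ, x ≤ N ∧ (N : ℝ) ≤ x + Y ∧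
      c * C * (Real.log Y / Real.log x) * Real.log (Real.log Y) ≤
        |(primeCount N : ℝ) - C * ∫ t in (2 : ℝ)..(N : ℝ), 1 / Real.log t| := by
  obtain ⟨c, hc, Y₀, h⟩ := Pool.Agent.U847.Q484.omega
  refine ⟨c, hc, Y₀, fun Y x hY hYx => ⟨fun κ F hκ hF => h κ F hκ hF Y x hY hYx, fun C hC => ?_⟩⟩
  exact h C (fun N => C * ∫ t in (2 : ℝ)..(N : ℝ), 1 / Real.log t) hC
    (fun n hn => Pool.Agent.U847.Q484.li_incr C hC n hn) Y x hY hYx

end Pool.Agent.Results.MP_484c84_nt.ErrorTermLogLog
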