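import Mathlib
import Pool.Agent.U529.BL.Lpf

/-!
# The largest prime factor of `m² + l²`, `m ≤ N`, for all but `N ^ μ` of the `l ≤ N`

Let `0 < μ < 1` and `1 ≤ θ < 1 + μ`. For all but at most `N ^ μ` of the `l ≤ N` the proportion of the `m ≤ N` for which
`m² + l²` has a prime factor at least `N ^ θ` is, up to `ε`, between `log ((1 + μ) / θ) + (1 - μ) / 2` and
`log ((1 + μ) / θ) + (1 - μ) / (1 + μ)`. For `μ → 1` both bounds tend to `log (2 / θ)`, the proportion for the integers
up to `N²`. In particular `m² + l²` has a prime factor at least `N ^ (1 + μ - ε)` for at least `((1 - μ) / 2 - ε) N` of the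
`m ≤ N`.

Proof. `∑_{m ≤ N} ∑_{p ∣ m² + l²} log p = (2 + o(1)) N log N` uniformly in `l ≤ N`: the contribution of the square parts
of the `m² + l²` is bounded with the numbers of the solutions of `m² ≡ -l²` modulo squares of prime powers
(`Pool/Agent/U529/BL/Sq.lean`). For all but `N ^ μ` of the `l ≤ N` the primes below `N ^ τ`, `τ < 1 + μ`, contribute
`(τ + o(1)) N log N` (`Lin.lean`) and the primes in `[N ^ θ, N ^ τ)` divide `(log (τ / θ) + o(1)) N` of the values, by the
law for one prime (`Law.lean`), which follows from the level of distribution `N ^ (1 + μ - ε)` outside an exceptional set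
(`Pool.Agent.U529.FD.few`, large sieve for the roots of `ν² ≡ -1`, applied to the indicator function of the exceptional
set). A value has at most one prime factor larger than `2 N`.
-/

set_option autoImplicit false

namespace Pool.Agent.Results.MP_484c84_nt.LargestPrimeFactorFewExceptions

open Finset Filter Topology

open Classical in
/-- the number of the `m ≤ N` for which `m² + l²` has a prime factor at least `z` -/
noncomputable def valuesWithLargePrimeFactor (l N : ℕ) (z : ℝ) : ℕ :=
  ((Icc 1 N).filter (fun m : ℕ => ∃ p : ℕ, p.Prime ∧ p ∣ m ^ 2 + l ^ 2 ∧ z ≤ p)).card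

open Classical in
theorem result (μ θ ε : ℝ) (hμ0 : 0 < μ) (hμ1 : μ < 1) (hθ1 : 1 ≤ θ) (hθ2 : θ < 1 + μ) (hε : 0 < ε) :
    ∀ᶠ N : ℕ in atTop, (((Icc 1 N).filter (fun l : ℕ =>
      ¬ ((Real.log ((1 + μ) / θ) + (1 - μ) / 2 - ε) * N ≤ valuesWithLargePrimeFactor l N ((N : ℝ) ^ θ) ∧
        (valuesWithLargePrimeFactor l N ((N : ℝ) ^ θ) : ℝ) ≤
          (Real.log ((1 + μ) / θ) + (1 - μ) / (1 + μ) + ε) * N))).card : ℝ) ≤ (N : ℝ) ^ μ := by
  have h := Pool.Agent.U529.BL.lpf μ θ ε hμ0 hμ1 hθ1 hθ2 hε
  unfold Pool.Agent.U529.BL.FE at h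
  filter_upwards [h] with N hN
  convert hN <;> rfl

end Pool.Agent.Results.MP_484c84_nt.LargestPrimeFactorFewExceptions
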